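import Pool.Agent.Helper83_DPB.Stmts

/-!
# MODULE SEP: the quotient is separable
-/

set_option autoImplicit false

open Filter Topology Set

namespace Pool.Agent.Helper83_DPB.H73

theorem U1_mem (n : ℕ) : U1 n ∈ XX :=
  Submodule.le_topologicalClosure _ (Submodule.mem_sup_right
    (Submodule.subset_span (Or.inl ⟨n, rfl⟩)))

theorem U2_mem (n : ℕ) : U2 n ∈ XX :=
  Submodule.le_topologicalClosure _ (Submodule.mem_sup_right
    (Submodule.subset_span (Or.inr ⟨n, rfl⟩)))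

/-- MODULE SEP -/
theorem sep : SepStmt := by
  refine ⟨fun n => if n % 2 = 0 then ⟨U1 (n / 2), U1_mem _⟩ else ⟨U2 (n / 2), U2_mem _⟩, ?_⟩
  set x : ℕ → XX := fun n => if n % 2 = 0 then ⟨U1 (n / 2), U1_mem _⟩ else ⟨U2 (n / 2), U2_mem _⟩
    with hx
  have hspan : ∀ y ∈ Submodule.span ℂ (Set.range U1 ∪ Set.range U2),
      ∃ y' ∈ Submodule.span ℂ (Set.range x), (y' : LI Pt) = y := by
    intro y hy
    have hle : Submodule.span ℂ (Set.range U1 ∪ Set.range U2) ≤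
        (Submodule.span ℂ (Set.range x)).map XX.subtype := by
      rw [Submodule.span_le]
      rintro w (⟨n, rfl⟩ | ⟨n, rfl⟩)
      · refine ⟨x (2 * n), Submodule.subset_span ⟨_, rfl⟩, ?_⟩
        simp [hx]
      · refine ⟨x (2 * n + 1), Submodule.subset_span ⟨_, rfl⟩, ?_⟩
        have h1 : (2 * n + 1) % 2 = 1 := by omega
        have h2 : (2 * n + 1) / 2 = n := by omega
        simp [hx, h1, h2]
    obtain ⟨y', hy', h⟩ := hle hy
    exact ⟨y', hy', h⟩
  intro z ε hε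
  have hz : (z : LI Pt) ∈ closure ((AA ⊔ Submodule.span ℂ (Set.range U1 ∪ Set.range U2) :
      Submodule ℂ (LI Pt)) : Set (LI Pt)) := z.2
  obtain ⟨w, hw, hdist⟩ := Metric.mem_closure_iff.1 hz ε hε
  obtain ⟨a, ha, y, hy, rfl⟩ := Submodule.mem_sup.1 hw
  obtain ⟨y', hy', rfl⟩ := hspan y hy
  refine ⟨y', hy', ⟨a, ha⟩, ?_⟩
  rw [dist_eq_norm] at hdist
  have e : ((z - y' - JJ ⟨a, ha⟩ : XX) : LI Pt) = (z : LI Pt) - (a + y') := by
    have : ((JJ ⟨a, ha⟩ : XX) : LI Pt) = a := rfl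
    rw [Submodule.coe_sub, Submodule.coe_sub, this]
    abel
  rw [← e] at hdist
  exact hdist

end Pool.Agent.Helper83_DPB.H73
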